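import Mathlib

/-!
# [H51 CW Wa] Minkowski step with explicit bounds
-/

set_option autoImplicit false

open NumberField NumberField.InfinitePlace NumberField.mixedEmbedding Module
open scoped NNReal ENNReal

noncomputable section

namespace H51.CW

variable (K : Type*) [Field K] [NumberField K]

/-- the norm bound of the sequence -/
def mB : ℕ := 2 ^ (finrank ℚ K) * ((discr K).natAbs + 1)

theorem mB_pos : 0 < mB K := by
  unfold mB
  positivity

theorem one_le_mB : (1 : ℝ) ≤ mB K := by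
  exact_mod_cast mB_pos K

theorem mink_lt : minkowskiBound K 1 < convexBodyLTFactor K * (mB K : ℝ≥0∞) := by
  have h1 : minkowskiBound K 1 ≤ ((2 ^ (finrank ℚ K) * (discr K).natAbs : ℕ) : ℝ≥0∞) := by
    rw [minkowskiBound, volume_fundamentalDomain_fractionalIdealLatticeBasis, Units.val_one,
      FractionalIdeal.absNorm_one, Rat.cast_one, ENNReal.ofReal_one, one_mul,
      mixedEmbedding.finrank, volume_fundamentalDomain_latticeBasis, Nat.cast_mul, Nat.cast_pow,
      Nat.cast_ofNat, mul_comm ((2 : ℝ≥0∞) ^ finrank ℚ K)]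
    gcongr
    calc (2 : ℝ≥0∞)⁻¹ ^ nrComplexPlaces K * (NNReal.sqrt ‖discr K‖₊ : ℝ≥0∞)
        ≤ 1 * (NNReal.sqrt ‖discr K‖₊ : ℝ≥0∞) := by
          gcongr
          exact pow_le_one₀ (by positivity) (by simp)
      _ = (NNReal.sqrt ‖discr K‖₊ : ℝ≥0∞) := one_mul _
      _ ≤ ((discr K).natAbs : ℝ≥0∞) := by
          rw [← ENNReal.coe_natCast, ENNReal.coe_le_coe, ← NNReal.coe_le_coe, Real.coe_sqrt,
            coe_nnnorm, Int.norm_eq_abs, NNReal.coe_natCast, Nat.cast_natAbs, Int.cast_abs]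
          have h2 : (1 : ℝ) ≤ |(discr K : ℝ)| := by
            rw [← Int.cast_abs]
            exact_mod_cast Int.one_le_abs (discr_ne_zero K)
          rw [Real.sqrt_le_left (by positivity)]
          nlinarith
  have h2 : ((2 ^ (finrank ℚ K) * (discr K).natAbs : ℕ) : ℝ≥0∞) < (mB K : ℝ≥0∞) := by
    rw [Nat.cast_lt]
    unfold mB
    have : 0 < 2 ^ (finrank ℚ K) := by positivity
    exact Nat.mul_lt_mul_of_pos_left (Nat.lt_succ_self _) this
  calc minkowskiBound K 1 < (mB K : ℝ≥0∞) := lt_of_le_of_lt h1 h2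
    _ = 1 * (mB K : ℝ≥0∞) := (one_mul _).symm
    _ ≤ convexBodyLTFactor K * (mB K : ℝ≥0∞) := by
      gcongr
      exact mod_cast one_le_convexBodyLTFactor K

variable {K}

theorem norm_natAbs (y : 𝓞 K) : ((Algebra.norm ℤ y).natAbs : ℝ) =
    ∏ w : InfinitePlace K, w (y : K) ^ mult w := by
  rw [prod_eq_abs_norm, Nat.cast_natAbs, ← Algebra.coe_norm_int]
  push_cast
  rfl

theorem norm_pos {y : 𝓞 K} (hy : y ≠ 0) : 1 ≤ (Algebra.norm ℤ y).natAbs := by
  rw [Nat.one_le_iff_ne_zero, ne_eq, Int.natAbs_eq_zero, Algebra.norm_eq_zero_iff]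
  exact hy

theorem step (v : InfinitePlace K) {x : 𝓞 K} (hx : x ≠ 0) :
    ∃ y : 𝓞 K, y ≠ 0 ∧ (∀ w, w ≠ v → w (y : K) ≤ w (x : K) / 2) ∧
      (∀ w, w ≠ v → w (x : K) / (2 * mB K) ≤ w (y : K)) ∧
      (Algebra.norm ℤ y).natAbs ≤ mB K := by
  classical
  have hx' := RingOfIntegers.coe_ne_zero_iff.mpr hx
  let f : InfinitePlace K → ℝ≥0 :=
    fun w ↦ ⟨(w (x : K)) / 2, div_nonneg (AbsoluteValue.nonneg _ _) (by simp)⟩
  have hf : ∀ w, w ≠ v → f w ≠ 0 := by
    intro w _
    rw [ne_eq, ← NNReal.coe_eq_zero]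
    show ¬ (w (x : K)) / 2 = 0
    rw [div_eq_zero_iff, map_eq_zero, not_or]
    exact ⟨hx', by simp⟩
  obtain ⟨g, hg, hprod⟩ := adjust_f K (mB K : ℝ≥0) hf
  obtain ⟨y, hy0, hy⟩ := exists_ne_zero_mem_ringOfIntegers_lt K (f := g) (by
    rw [convexBodyLT_volume]
    have h := mink_lt K
    have h2 : ((∏ w, (g w) ^ (mult w) : ℝ≥0) : ℝ≥0∞) = (mB K : ℝ≥0∞) := by
      rw [hprod]
      rfl
    rw [← h2] at h
    convert h using 2)
  have hprod' : ∏ w : InfinitePlace K, (g w : ℝ) ^ mult w = mB K := by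
    have := congrArg (fun t : ℝ≥0 => (t : ℝ)) hprod
    simpa using this
  have hgw : ∀ w, w ≠ v → (g w : ℝ) = w (x : K) / 2 := fun w hw => by
    rw [hg w hw]
    rfl
  have hyn : (1 : ℝ) ≤ ∏ w : InfinitePlace K, w (y : K) ^ mult w := by
    rw [← norm_natAbs]
    exact_mod_cast norm_pos hy0
  refine ⟨y, hy0, fun w hw => ?_, fun w hw => ?_, ?_⟩
  · rw [← hgw w hw]
    exact (hy w).le
  · have hgp : 0 < (g w : ℝ) := by
      rw [hgw w hw]
      have : 0 < w (x : K) := pos_iff.mpr hx'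
      positivity
    have hB := one_le_mB K
    -- w y ^ mult w * prod of the others >= 1
    have h1 : ∏ w' : InfinitePlace K, w' (y : K) ^ mult w' ≤
        w (y : K) ^ mult w * ∏ w' ∈ Finset.univ.erase w, (g w' : ℝ) ^ mult w' := by
      rw [← Finset.mul_prod_erase Finset.univ _ (Finset.mem_univ w)]
      gcongr with w' _
      exact (hy w').le
    have h2 : (g w : ℝ) ^ mult w * ∏ w' ∈ Finset.univ.erase w, (g w' : ℝ) ^ mult w' = mB K := by
      rw [Finset.mul_prod_erase Finset.univ (fun w' => (g w' : ℝ) ^ mult w') (Finset.mem_univ w)]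
      exact hprod'
    have h3 : (g w : ℝ) ^ mult w ≤ w (y : K) ^ mult w * mB K := by
      have h4 : 1 ≤ w (y : K) ^ mult w * ∏ w' ∈ Finset.univ.erase w, (g w' : ℝ) ^ mult w' :=
        hyn.trans h1
      calc (g w : ℝ) ^ mult w = (g w : ℝ) ^ mult w * 1 := (mul_one _).symm
        _ ≤ (g w : ℝ) ^ mult w * (w (y : K) ^ mult w *
            ∏ w' ∈ Finset.univ.erase w, (g w' : ℝ) ^ mult w') := by gcongr
        _ = w (y : K) ^ mult w * ((g w : ℝ) ^ mult w *
            ∏ w' ∈ Finset.univ.erase w, (g w' : ℝ) ^ mult w') := by ring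
        _ = _ := by rw [h2]
    have h5 : (g w : ℝ) ^ mult w ≤ (w (y : K) * mB K) ^ mult w := by
      rw [mul_pow]
      refine h3.trans ?_
      gcongr
      exact le_self_pow₀ hB mult_ne_zero
    have h6 : (g w : ℝ) ≤ w (y : K) * mB K :=
      (pow_le_pow_iff_left₀ hgp.le (by positivity) mult_ne_zero).1 h5
    rw [hgw w hw] at h6
    rw [div_le_iff₀ (by positivity)]
    linarith
  · have h1 : ((Algebra.norm ℤ y).natAbs : ℝ) ≤ mB K := by
      rw [norm_natAbs, ← hprod']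
      gcongr with w _
      exact (hy w).le
    exact_mod_cast h1

end H51.CW
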