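import Pool.Agent.H51.CW.Wa

/-!
# [H51 CW Wb] A unit attached to an infinite place, with explicit bounds
-/

set_option autoImplicit false

open NumberField NumberField.InfinitePlace NumberField.mixedEmbedding Module
open scoped NNReal ENNReal

noncomputable section

namespace H51.CW

variable (K : Type*) [Field K] [NumberField K]

/-- number of boxes of the pigeonhole -/
def mM : ℕ := (mB K + 1) ^ (finrank ℚ K + 1)

/-- bound for the logarithms of the unit -/
def mL : ℝ := finrank ℚ K * (mM K * Real.log (2 * mB K))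

variable {K}

theorem log_two_mB_nonneg : 0 ≤ Real.log (2 * mB K) := by
  apply Real.log_nonneg
  have := one_le_mB K
  linarith

theorem mL_nonneg : 0 ≤ mL K := by
  unfold mL
  have := log_two_mB_nonneg (K := K)
  positivity

theorem exists_seq (v : InfinitePlace K) : ∃ a : ℕ → 𝓞 K, (∀ k, a k ≠ 0) ∧
    (∀ k w, w ≠ v → w (a (k + 1) : K) ≤ w (a k : K) / 2) ∧
    (∀ k w, w ≠ v → w (a k : K) / (2 * mB K) ≤ w (a (k + 1) : K)) ∧
    ∀ k, (Algebra.norm ℤ (a k)).natAbs ≤ mB K := by
  let s : ℕ → {x : 𝓞 K // x ≠ 0} := fun k => Nat.rec ⟨1, one_ne_zero⟩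
    (fun _ x => ⟨(step v x.2).choose, (step v x.2).choose_spec.1⟩) k
  have hs : ∀ k, (s (k + 1) : 𝓞 K) = (step v (s k).2).choose := fun k => rfl
  let a : ℕ → 𝓞 K := fun k => (s k).1
  refine ⟨a, fun k => (s k).2, fun k w hw => ?_, fun k w hw => ?_, fun k => ?_⟩
  · show w ((s (k + 1) : 𝓞 K) : K) ≤ _
    rw [hs]
    exact (step v (s k).2).choose_spec.2.1 w hw
  · show _ ≤ w ((s (k + 1) : 𝓞 K) : K)
    rw [hs]
    exact (step v (s k).2).choose_spec.2.2.1 w hw
  · cases k with
    | zero =>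
      show (Algebra.norm ℤ (1 : 𝓞 K)).natAbs ≤ mB K
      rw [map_one, Int.natAbs_one]
      exact mB_pos K
    | succ k =>
      show (Algebra.norm ℤ (s (k + 1) : 𝓞 K)).natAbs ≤ mB K
      rw [hs]
      exact (step v (s k).2).choose_spec.2.2.2

/-- two elements of the same norm `n`, congruent modulo `n`, are associated -/
theorem assoc_of_cong {x y : 𝓞 K} {n : ℕ} (hx : (Algebra.norm ℤ x).natAbs = n)
    (hy : (Algebra.norm ℤ y).natAbs = n) (c : 𝓞 K) (h : x = y + (n : 𝓞 K) * c) :
    Associated x y := by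
  have h1 : ∀ z : 𝓞 K, (Algebra.norm ℤ z).natAbs = n → z ∣ (n : 𝓞 K) := by
    intro z hz
    have h2 := Ideal.absNorm_mem (Ideal.span {z})
    rw [Ideal.absNorm_span_singleton, hz, Ideal.mem_span_singleton] at h2
    exact h2
  refine associated_of_dvd_dvd ?_ ?_
  · have h3 : y = x - (n : 𝓞 K) * c := by
      rw [h]
      ring
    rw [h3]
    exact dvd_sub (dvd_refl x) (Dvd.dvd.mul_right (h1 x hx) c)
  · rw [h]
    exact dvd_add (dvd_refl y) (Dvd.dvd.mul_right (h1 y hy) c)

theorem pigeon (a : ℕ → 𝓞 K) (ha : ∀ k, (Algebra.norm ℤ (a k)).natAbs ≤ mB K)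
    (h0 : ∀ k, a k ≠ 0) : ∃ i j, i < j ∧ j ≤ mM K ∧ Associated (a i) (a j) := by
  classical
  let b := RingOfIntegers.basis K
  let ι := Free.ChooseBasisIndex ℤ (𝓞 K)
  let f : ℕ → ℕ × (ι → ℕ) := fun k => ((Algebra.norm ℤ (a k)).natAbs,
    fun i => (b.repr (a k) i % ((Algebra.norm ℤ (a k)).natAbs : ℤ)).toNat)
  let t : Finset (ℕ × (ι → ℕ)) := Finset.range (mB K + 1) ×ˢ
    Fintype.piFinset fun _ : ι => Finset.range (mB K)
  have hpos : ∀ k, 0 < (Algebra.norm ℤ (a k)).natAbs := fun k => norm_pos (h0 k)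
  have hcard : t.card < (Finset.range (mM K + 1)).card := by
    rw [Finset.card_product, Finset.card_range, Fintype.card_piFinset, Finset.card_range,
      Finset.prod_const, Finset.card_range, Finset.card_univ]
    have hι : Fintype.card ι = finrank ℚ K := by
      rw [← RingOfIntegers.rank, finrank_eq_card_chooseBasisIndex]
    rw [hι]
    have h1 : (mB K + 1) * mB K ^ finrank ℚ K ≤ (mB K + 1) * (mB K + 1) ^ finrank ℚ K :=
      Nat.mul_le_mul_left _ (Nat.pow_le_pow_left (Nat.le_succ _) _)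
    have h2 : (mB K + 1) * (mB K + 1) ^ finrank ℚ K = mM K := by
      unfold mM
      rw [pow_succ]
      ring
    omega
  have hmaps : ∀ k ∈ Finset.range (mM K + 1), f k ∈ t := by
    intro k _
    rw [Finset.mem_product, Finset.mem_range, Fintype.mem_piFinset]
    refine ⟨Nat.lt_succ_of_le (ha k), fun i => ?_⟩
    rw [Finset.mem_range]
    show (b.repr (a k) i % ((Algebra.norm ℤ (a k)).natAbs : ℤ)).toNat < mB K
    have h1 := Int.emod_lt_of_pos (b.repr (a k) i)
      (show (0 : ℤ) < ((Algebra.norm ℤ (a k)).natAbs : ℤ) by exact_mod_cast hpos k)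
    have h2 := Int.emod_nonneg (b.repr (a k) i)
      (show ((Algebra.norm ℤ (a k)).natAbs : ℤ) ≠ 0 by exact_mod_cast (hpos k).ne')
    have h3 := ha k
    omega
  obtain ⟨i, hi, j, hj, hij, hf⟩ := Finset.exists_ne_map_eq_of_card_lt_of_maps_to hcard hmaps
  have key : ∀ i j, f i = f j → Associated (a i) (a j) := by
    intro i j hf
    have hn : (Algebra.norm ℤ (a i)).natAbs = (Algebra.norm ℤ (a j)).natAbs :=
      congrArg Prod.fst hf
    have hd : ∀ s, ((Algebra.norm ℤ (a j)).natAbs : ℤ) ∣ b.repr (a i) s - b.repr (a j) s := by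
      intro s
      have h1 := congrFun (congrArg Prod.snd hf) s
      change (b.repr (a i) s % ((Algebra.norm ℤ (a i)).natAbs : ℤ)).toNat =
        (b.repr (a j) s % ((Algebra.norm ℤ (a j)).natAbs : ℤ)).toNat at h1
      rw [hn] at h1
      have hne : ((Algebra.norm ℤ (a j)).natAbs : ℤ) ≠ 0 := by exact_mod_cast (hpos j).ne'
      have h2 := Int.emod_nonneg (b.repr (a i) s) hne
      have h3 := Int.emod_nonneg (b.repr (a j) s) hne
      apply Int.dvd_of_emod_eq_zero
      rw [Int.sub_emod]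
      have h4 : b.repr (a i) s % ((Algebra.norm ℤ (a j)).natAbs : ℤ) =
        b.repr (a j) s % ((Algebra.norm ℤ (a j)).natAbs : ℤ) := by omega
      rw [h4, sub_self, Int.zero_emod]
    choose c hc using hd
    refine assoc_of_cong hn rfl (∑ s, c s • b s) ?_
    apply b.ext_elem
    intro s
    rw [map_add, Finsupp.add_apply, ← nsmul_eq_mul, map_nsmul, Finsupp.smul_apply,
      Basis.repr_sum_self]
    have := hc s
    rw [nsmul_eq_mul]
    linarith
  rcases lt_or_gt_of_ne hij with h | h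
  · exact ⟨i, j, h, Nat.lt_succ_iff.1 (Finset.mem_range.1 hj), key i j hf⟩
  · exact ⟨j, i, h, Nat.lt_succ_iff.1 (Finset.mem_range.1 hi), key j i hf.symm⟩

theorem seq_bounds (v : InfinitePlace K) (a : ℕ → 𝓞 K) (h0 : ∀ k, a k ≠ 0)
    (h1 : ∀ k w, w ≠ v → w (a (k + 1) : K) ≤ w (a k : K) / 2)
    (h2 : ∀ k w, w ≠ v → w (a k : K) / (2 * mB K) ≤ w (a (k + 1) : K)) (w : InfinitePlace K)
    (hw : w ≠ v) (i m : ℕ) :
    Real.log (w (a (i + m) : K)) ≤ Real.log (w (a i : K)) - m * Real.log 2 ∧
    Real.log (w (a i : K)) - m * Real.log (2 * mB K) ≤ Real.log (w (a (i + m) : K)) := by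
  have hpos : ∀ k, 0 < w (a k : K) := fun k =>
    pos_iff.mpr (RingOfIntegers.coe_ne_zero_iff.mpr (h0 k))
  have hB := one_le_mB K
  induction m with
  | zero => simp
  | succ m ih =>
    obtain ⟨i1, i2⟩ := ih
    have e1 := Real.log_le_log (hpos _) (h1 (i + m) w hw)
    rw [Real.log_div (hpos _).ne' (by norm_num)] at e1
    have e2 := Real.log_le_log (by have := hpos (i + m); positivity) (h2 (i + m) w hw)
    rw [Real.log_div (hpos _).ne' (by positivity)] at e2
    rw [← add_assoc]
    push_cast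
    constructor
    · linarith
    · linarith

theorem unit_v (v : InfinitePlace K) : ∃ u : (𝓞 K)ˣ, (∀ w : InfinitePlace K, w ≠ v →
    Real.log (w (u : K)) ≤ -Real.log 2) ∧ ∀ w : InfinitePlace K, |Real.log (w (u : K))| ≤ mL K := by
  obtain ⟨a, h0, h1, h2, h3⟩ := exists_seq v
  obtain ⟨i, j, hij, hj, u, hu⟩ := pigeon a h3 h0
  obtain ⟨m, rfl⟩ := Nat.exists_eq_add_of_lt hij
  have hpos : ∀ (w : InfinitePlace K) k, 0 < w (a k : K) := fun w k =>
    pos_iff.mpr (RingOfIntegers.coe_ne_zero_iff.mpr (h0 k))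
  have hlu : ∀ w : InfinitePlace K, Real.log (w (u : K)) =
      Real.log (w (a (i + m + 1) : K)) - Real.log (w (a i : K)) := by
    intro w
    have e : w (a i : K) * w (u : K) = w (a (i + m + 1) : K) := by
      rw [← map_mul, ← hu]
      simp
    rw [← e, Real.log_mul (hpos w i).ne' (Units.pos_at_place u w).ne']
    ring
  have hmM : ((m + 1 : ℕ) : ℝ) ≤ mM K := by
    exact_mod_cast (show m + 1 ≤ mM K by omega)
  have hl2 : 0 < Real.log 2 := Real.log_pos (by norm_num)
  have hlB := log_two_mB_nonneg (K := K)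
  have hm1 : (1 : ℝ) ≤ ((m + 1 : ℕ) : ℝ) := by
    push_cast
    have : (0 : ℝ) ≤ m := Nat.cast_nonneg m
    linarith
  have hup : ∀ w : InfinitePlace K, w ≠ v → Real.log (w (u : K)) ≤ -Real.log 2 := by
    intro w hw
    rw [hlu w]
    have h := (seq_bounds v a h0 h1 h2 w hw i (m + 1)).1
    rw [← add_assoc] at h
    nlinarith
  have hlow : ∀ w : InfinitePlace K, w ≠ v →
      -(mM K * Real.log (2 * mB K)) ≤ Real.log (w (u : K)) := by
    intro w hw
    rw [hlu w]
    have h := (seq_bounds v a h0 h1 h2 w hw i (m + 1)).2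
    rw [← add_assoc] at h
    nlinarith
  have hd1 : (1 : ℝ) ≤ finrank ℚ K := by
    exact_mod_cast (Module.finrank_pos (R := ℚ) (M := K))
  have hMl : 0 ≤ mM K * Real.log (2 * mB K) := by positivity
  refine ⟨u, hup, fun w => ?_⟩
  by_cases hw : w = v
  · subst hw
    classical
    have hs := Units.sum_mult_mul_log u
    rw [← Finset.add_sum_erase Finset.univ _ (Finset.mem_univ w)] at hs
    have hlo : -(finrank ℚ K * (mM K * Real.log (2 * mB K))) ≤
        ∑ x ∈ Finset.univ.erase w, (mult x : ℝ) * Real.log (x (u : K)) := by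
      have e1 : ∑ x ∈ Finset.univ.erase w, (mult x : ℝ) * (-(mM K * Real.log (2 * mB K))) ≤
          ∑ x ∈ Finset.univ.erase w, (mult x : ℝ) * Real.log (x (u : K)) := by
        apply Finset.sum_le_sum
        intro x hx
        exact mul_le_mul_of_nonneg_left (hlow x (Finset.ne_of_mem_erase hx)) (Nat.cast_nonneg _)
      rw [← Finset.sum_mul] at e1
      have e2 : ∑ x ∈ Finset.univ.erase w, (mult x : ℝ) ≤ finrank ℚ K := by
        rw [← sum_mult_eq (K := K)]
        push_cast
        exact Finset.sum_le_sum_of_subset_of_nonneg (Finset.erase_subset _ _)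
          fun _ _ _ => Nat.cast_nonneg _
      nlinarith
    have hhi : ∑ x ∈ Finset.univ.erase w, (mult x : ℝ) * Real.log (x (u : K)) ≤ 0 := by
      apply Finset.sum_nonpos
      intro x hx
      have := hup x (Finset.ne_of_mem_erase hx)
      have h5 : Real.log (x (u : K)) ≤ 0 := by linarith
      exact mul_nonpos_of_nonneg_of_nonpos (Nat.cast_nonneg _) h5
    have hmw : (1 : ℝ) ≤ mult w := by
      exact_mod_cast mult_pos (w := w)
    have h6 : 0 ≤ (mult w : ℝ) * Real.log (w (u : K)) := by linarith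
    have h7 : 0 ≤ Real.log (w (u : K)) := by
      by_contra h
      push Not at h
      nlinarith
    rw [abs_of_nonneg h7]
    unfold mL
    nlinarith
  · rw [abs_le]
    have e1 := hup w hw
    have e2 := hlow w hw
    unfold mL
    constructor
    · nlinarith
    · nlinarith

end H51.CW
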