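import Pool.Agent.H51.CW.Wb

/-!
# [H51 CW Wc] A generator modulo `l`-th powers of units, with explicit bounds
-/

set_option autoImplicit false

open NumberField NumberField.InfinitePlace NumberField.mixedEmbedding Module

noncomputable section

namespace H51.CW

variable {K : Type*} [Field K] [NumberField K]

theorem sum_log {y : 𝓞 K} (hy : y ≠ 0) : ∑ w : InfinitePlace K, (mult w : ℝ) *
    Real.log (w (y : K)) = Real.log ((Algebra.norm ℤ y).natAbs : ℝ) := by
  rw [norm_natAbs, Real.log_prod]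
  · refine Finset.sum_congr rfl fun w _ => ?_
    rw [Real.log_pow]
  · intro w _
    have : 0 < w (y : K) := pos_iff.mpr (RingOfIntegers.coe_ne_zero_iff.mpr hy)
    positivity

theorem cover {l : ℕ} (hl : 1 ≤ l) {g : 𝓞 K} (hg : g ≠ 0) : ∃ e : (𝓞 K)ˣ,
    ∀ w : InfinitePlace K, Real.log (w ((g * (e : 𝓞 K) ^ l : 𝓞 K) : K)) ≤
      Real.log ((Algebra.norm ℤ g).natAbs : ℝ) + l * mL K ^ 2 + 1 := by
  classical
  let x : (𝓞 K)ˣ → InfinitePlace K → ℝ := fun e w =>
    Real.log (w (g : K)) + l * Real.log (w (e : K))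
  have hgw : ∀ w : InfinitePlace K, 0 < w (g : K) := fun w =>
    pos_iff.mpr (RingOfIntegers.coe_ne_zero_iff.mpr hg)
  have hx : ∀ (e : (𝓞 K)ˣ) (w : InfinitePlace K),
      Real.log (w ((g * (e : 𝓞 K) ^ l : 𝓞 K) : K)) = x e w := by
    intro e w
    have h1 : ((g * (e : 𝓞 K) ^ l : 𝓞 K) : K) = (g : K) * (e : K) ^ l := by simp
    rw [h1, map_mul, map_pow, Real.log_mul (hgw w).ne'
      (pow_ne_zero _ (Units.pos_at_place e w).ne'), Real.log_pow]
  let F : (𝓞 K)ˣ → ℝ := fun e => ∑ w, (mult w : ℝ) * x e w ^ 2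
  have hF0 : ∀ e, 0 ≤ F e := fun e => Finset.sum_nonneg fun w _ => by positivity
  have hbdd : BddBelow (Set.range F) := ⟨0, by
    rintro _ ⟨e, rfl⟩
    exact hF0 e⟩
  obtain ⟨_, ⟨e, rfl⟩, he⟩ := exists_lt_of_csInf_lt (Set.range_nonempty F)
    (show sInf (Set.range F) < sInf (Set.range F) + 1 by linarith)
  have hmin : ∀ e', F e ≤ F e' + 1 := fun e' => by
    have := csInf_le hbdd ⟨e', rfl⟩
    linarith
  refine ⟨e, fun w => ?_⟩
  rw [hx]
  obtain ⟨v, -, hv⟩ := Finset.exists_max_image Finset.univ (x e) Finset.univ_nonempty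
  refine (hv w (Finset.mem_univ w)).trans ?_
  obtain ⟨u, hu1, hu2⟩ := unit_v v
  have hsu := Units.sum_mult_mul_log u
  have hse := Units.sum_mult_mul_log e
  -- the sum of the coordinates
  have hsx : ∑ w, (mult w : ℝ) * x e w = Real.log ((Algebra.norm ℤ g).natAbs : ℝ) := by
    rw [← sum_log hg]
    have h1 : ∀ w : InfinitePlace K, (mult w : ℝ) * x e w = (mult w : ℝ) * Real.log (w (g : K)) +
        l * ((mult w : ℝ) * Real.log (w (e : K))) := by
      intro w
      show (mult w : ℝ) * (Real.log (w (g : K)) + l * Real.log (w (e : K))) = _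
      ring
    rw [Finset.sum_congr rfl fun w _ => h1 w, Finset.sum_add_distrib, ← Finset.mul_sum, hse,
      mul_zero, add_zero]
  have hsm : ∑ w : InfinitePlace K, (mult w : ℝ) = finrank ℚ K := by
    rw [← sum_mult_eq (K := K)]
    push_cast
    rfl
  have hxe : ∀ w : InfinitePlace K, x (e * u⁻¹) w = x e w - l * Real.log (w (u : K)) := by
    intro w
    show Real.log (w (g : K)) + l * Real.log (w ((e * u⁻¹ : (𝓞 K)ˣ) : K)) =
      Real.log (w (g : K)) + l * Real.log (w (e : K)) - l * Real.log (w (u : K))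
    have h1 : algebraMap (𝓞 K) K ((e * u⁻¹ : (𝓞 K)ˣ) : 𝓞 K) =
        algebraMap (𝓞 K) K (e : 𝓞 K) * algebraMap (𝓞 K) K ((u⁻¹ : (𝓞 K)ˣ) : 𝓞 K) := by
      rw [Units.val_mul, map_mul]
    have h2 : w (algebraMap (𝓞 K) K ((u⁻¹ : (𝓞 K)ˣ) : 𝓞 K)) *
        w (algebraMap (𝓞 K) K (u : 𝓞 K)) = 1 := by
      rw [← map_mul, ← map_mul, Units.inv_mul, map_one, map_one]
    have h3 : Real.log (w (algebraMap (𝓞 K) K ((u⁻¹ : (𝓞 K)ˣ) : 𝓞 K))) =
        -Real.log (w (algebraMap (𝓞 K) K (u : 𝓞 K))) := by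
      have h4 := congrArg Real.log h2
      rw [Real.log_mul (Units.pos_at_place _ w).ne' (Units.pos_at_place _ w).ne',
        Real.log_one] at h4
      linarith
    rw [h1, map_mul, Real.log_mul (Units.pos_at_place _ w).ne' (Units.pos_at_place _ w).ne', h3]
    ring
  have hm := hmin (e * u⁻¹)
  have hexp : F (e * u⁻¹) = F e - 2 * l * (∑ w : InfinitePlace K, (mult w : ℝ) * (x e w *
      Real.log (w (u : K)))) + l ^ 2 * ∑ w : InfinitePlace K,
        (mult w : ℝ) * Real.log (w (u : K)) ^ 2 := by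
    show ∑ w, (mult w : ℝ) * x (e * u⁻¹) w ^ 2 = ∑ w, (mult w : ℝ) * x e w ^ 2 - _ + _
    rw [Finset.mul_sum, Finset.mul_sum, ← Finset.sum_sub_distrib, ← Finset.sum_add_distrib]
    refine Finset.sum_congr rfl fun w _ => ?_
    rw [hxe w]
    ring
  have hsq : ∑ w : InfinitePlace K, (mult w : ℝ) * Real.log (w (u : K)) ^ 2 ≤
      finrank ℚ K * mL K ^ 2 := by
    rw [← hsm, Finset.sum_mul]
    refine Finset.sum_le_sum fun w _ => ?_
    refine mul_le_mul_of_nonneg_left ?_ (Nat.cast_nonneg _)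
    rw [← sq_abs]
    exact pow_le_pow_left₀ (abs_nonneg _) (hu2 w) 2
  have hin : Real.log 2 * (finrank ℚ K * x e v - Real.log ((Algebra.norm ℤ g).natAbs : ℝ)) ≤
      ∑ w : InfinitePlace K, (mult w : ℝ) * (x e w * Real.log (w (u : K))) := by
    have h1 : ∑ w : InfinitePlace K, (mult w : ℝ) * (x e w * Real.log (w (u : K))) =
        ∑ w : InfinitePlace K, (mult w : ℝ) * ((x e v - x e w) * (-Real.log (w (u : K)))) := by
      have h2 : ∀ w : InfinitePlace K, (mult w : ℝ) * ((x e v - x e w) *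
          (-Real.log (w (u : K)))) = (mult w : ℝ) * (x e w * Real.log (w (u : K))) -
          x e v * ((mult w : ℝ) * Real.log (w (u : K))) := fun w => by ring
      rw [Finset.sum_congr rfl fun w _ => h2 w, Finset.sum_sub_distrib, ← Finset.mul_sum, hsu,
        mul_zero, sub_zero]
    have h3 : Real.log 2 * (finrank ℚ K * x e v - Real.log ((Algebra.norm ℤ g).natAbs : ℝ)) =
        ∑ w : InfinitePlace K, (mult w : ℝ) * ((x e v - x e w) * Real.log 2) := by
      have h4 : ∀ w : InfinitePlace K, (mult w : ℝ) * ((x e v - x e w) * Real.log 2) =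
          (mult w : ℝ) * (x e v * Real.log 2) - Real.log 2 * ((mult w : ℝ) * x e w) :=
        fun w => by ring
      rw [Finset.sum_congr rfl fun w _ => h4 w, Finset.sum_sub_distrib, ← Finset.mul_sum, hsx,
        ← Finset.sum_mul, hsm]
      ring
    rw [h1, h3]
    refine Finset.sum_le_sum fun w _ => ?_
    refine mul_le_mul_of_nonneg_left ?_ (Nat.cast_nonneg _)
    by_cases hw : w = v
    · rw [hw, sub_self, zero_mul, zero_mul]
    · refine mul_le_mul_of_nonneg_left ?_ ?_
      · linarith [hu1 w hw]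
      · linarith [hv w (Finset.mem_univ w)]
  have hd1 : (1 : ℝ) ≤ finrank ℚ K := by
    exact_mod_cast (Module.finrank_pos (R := ℚ) (M := K))
  have hl1 : (1 : ℝ) ≤ l := by exact_mod_cast hl
  have hN : 0 ≤ Real.log ((Algebra.norm ℤ g).natAbs : ℝ) := by
    apply Real.log_nonneg
    exact_mod_cast norm_pos hg
  have hL2 : 0 ≤ mL K ^ 2 := sq_nonneg _
  have hlog2 : (1 : ℝ) / 2 ≤ Real.log 2 := by
    have := Real.log_two_gt_d9
    linarith
  rw [hexp] at hm
  set N := Real.log ((Algebra.norm ℤ g).natAbs : ℝ) with hNd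
  set d : ℝ := (finrank ℚ K : ℝ) with hdd
  -- 2 l log2 (d x - N) <= l^2 d L^2 + 1
  have h5 : 2 * l * (Real.log 2 * (d * x e v - N)) ≤ l ^ 2 * (d * mL K ^ 2) + 1 := by
    have h6 : 2 * l * (Real.log 2 * (d * x e v - N)) ≤
        2 * l * (∑ w : InfinitePlace K, (mult w : ℝ) * (x e w * Real.log (w (u : K)))) :=
      mul_le_mul_of_nonneg_left hin (by positivity)
    have h7 : (l : ℝ) ^ 2 * ∑ w : InfinitePlace K, (mult w : ℝ) * Real.log (w (u : K)) ^ 2 ≤
        l ^ 2 * (d * mL K ^ 2) := mul_le_mul_of_nonneg_left hsq (by positivity)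
    linarith
  by_contra hcon
  push Not at hcon
  -- x e v > N + l L^2 + 1
  have h8 : l * mL K ^ 2 * d + 1 < d * x e v - N := by
    have h9 : d * (N + l * mL K ^ 2 + 1) < d * x e v :=
      mul_lt_mul_of_pos_left hcon (by linarith)
    nlinarith
  have h10 : 0 < d * x e v - N := by
    have : 0 ≤ l * mL K ^ 2 * d := by positivity
    linarith
  have h11 : l * (d * x e v - N) ≤ 2 * l * (Real.log 2 * (d * x e v - N)) := by
    have h12 : 0 ≤ l * (d * x e v - N) * (2 * Real.log 2 - 1) := by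
      apply mul_nonneg (by positivity)
      linarith
    nlinarith
  have h13 : l * (l * mL K ^ 2 * d + 1) < l * (d * x e v - N) :=
    mul_lt_mul_of_pos_left h8 (by linarith)
  nlinarith

end H51.CW
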