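import Pool.Agent.H51.CW.Wc

/-!
# [H51 CW Wd] Elements whose ideal is nearly an `l`-th power
-/

set_option autoImplicit false

open NumberField NumberField.InfinitePlace Module

noncomputable section

namespace H51.CW

variable {K : Type*} [Field K] [NumberField K]

theorem exists_small_ideal (b : (nonZeroDivisors (Ideal (𝓞 K)))) :
    ∃ c : nonZeroDivisors (Ideal (𝓞 K)), ClassGroup.mk0 c = ClassGroup.mk0 b ∧
      Ideal.absNorm (c : Ideal (𝓞 K)) ≤ mB K := by
  obtain ⟨c, hc, hn⟩ := exists_ideal_in_class_of_norm_le (K := K) (ClassGroup.mk0 b)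
  refine ⟨c, hc, ?_⟩
  have hd : 0 < finrank ℚ K := Module.finrank_pos (R := ℚ) (M := K)
  have h1 : (4 / Real.pi) ^ nrComplexPlaces K ≤ (2 : ℝ) ^ finrank ℚ K := by
    have e1 : (4 / Real.pi) ≤ (2 : ℝ) := by
      rw [div_le_iff₀ Real.pi_pos]
      have := Real.pi_gt_three
      linarith
    have e2 : nrComplexPlaces K ≤ finrank ℚ K := by
      rw [← card_add_two_mul_card_eq_rank]
      omega
    calc (4 / Real.pi) ^ nrComplexPlaces K ≤ (2 : ℝ) ^ nrComplexPlaces K := by
          have := Real.pi_pos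
          gcongr
      _ ≤ (2 : ℝ) ^ finrank ℚ K := by
          gcongr
          norm_num
  have h2 : ((finrank ℚ K).factorial : ℝ) / (finrank ℚ K : ℝ) ^ (finrank ℚ K) ≤ 1 := by
    rw [div_le_one (by positivity)]
    exact_mod_cast Nat.factorial_le_pow (finrank ℚ K)
  have h3 : Real.sqrt |(discr K : ℝ)| ≤ ((discr K).natAbs : ℝ) := by
    have h4 : (1 : ℝ) ≤ |(discr K : ℝ)| := by
      rw [← Int.cast_abs]
      exact_mod_cast Int.one_le_abs (discr_ne_zero K)
    rw [Nat.cast_natAbs, Int.cast_abs, Real.sqrt_le_left (by positivity)]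
    nlinarith
  have h5 : (Ideal.absNorm (c : Ideal (𝓞 K)) : ℝ) ≤ 2 ^ finrank ℚ K * (1 * ((discr K).natAbs : ℝ)) := by
    refine hn.trans ?_
    have := Real.pi_pos
    gcongr
  have h7 : (Ideal.absNorm (c : Ideal (𝓞 K)) : ℝ) ≤ (mB K : ℝ) := by
    refine h5.trans ?_
    unfold mB
    push_cast
    rw [one_mul]
    gcongr
    linarith
  exact_mod_cast h7

/-- the exponent of the bound -/
def cwC (K : Type*) [Field K] [NumberField K] (l : ℕ) : ℝ :=
  l * Real.log (mB K) + l * mL K ^ 2 + 1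

theorem cw_unit {l : ℕ} (hl : 1 ≤ l) {α : 𝓞 K} (hα : α ≠ 0) (a b : Ideal (𝓞 K))
    (h : Ideal.span {α} = a * b ^ l) : ∃ (u : 𝓞 K) (v : K), u ≠ 0 ∧ v ≠ 0 ∧
      (α : K) = u * v ^ l ∧ ∀ w : InfinitePlace K,
        Real.log (w (u : K)) ≤ Real.log (Ideal.absNorm a) + cwC K l := by
  have hsp : Ideal.span {α} ≠ 0 := by
    rw [ne_eq, Ideal.zero_eq_bot, Ideal.span_singleton_eq_bot]
    exact hα
  have hab : a * b ^ l ≠ 0 := h ▸ hsp
  have ha : a ≠ 0 := left_ne_zero_of_mul hab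
  have hb : b ≠ 0 := fun hb => right_ne_zero_of_mul hab (by rw [hb, zero_pow (by omega)])
  obtain ⟨c, hc, hcn⟩ := exists_small_ideal ⟨b, mem_nonZeroDivisors_iff_ne_zero.2 hb⟩
  obtain ⟨x, y, hx, hy, hxy⟩ := ClassGroup.mk0_eq_mk0_iff.1 hc
  change Ideal.span {x} * (c : Ideal (𝓞 K)) = Ideal.span {y} * b at hxy
  have hcz : (c : Ideal (𝓞 K)) ≠ 0 := nonZeroDivisors.coe_ne_zero c
  -- α y^l = x^l γ
  have h1 : Ideal.span {α * y ^ l} = Ideal.span {x ^ l} * (a * (c : Ideal (𝓞 K)) ^ l) := by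
    rw [← Ideal.span_singleton_mul_span_singleton, ← Ideal.span_singleton_pow,
      ← Ideal.span_singleton_pow, h]
    calc a * b ^ l * Ideal.span {y} ^ l = a * (Ideal.span {y} * b) ^ l := by
          rw [mul_pow]
          ring
      _ = a * (Ideal.span {x} * (c : Ideal (𝓞 K))) ^ l := by rw [hxy]
      _ = _ := by
          rw [mul_pow]
          ring
  have h2 : x ^ l ∣ α * y ^ l := by
    rw [← Ideal.span_singleton_le_span_singleton, h1]
    exact Ideal.mul_le_left
  obtain ⟨g, hg⟩ := h2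
  have hxl : x ^ l ≠ 0 := pow_ne_zero _ hx
  have hg0 : g ≠ 0 := by
    rintro rfl
    rw [mul_zero] at hg
    exact mul_ne_zero hα (pow_ne_zero _ hy) hg
  have h3 : Ideal.span {g} = a * (c : Ideal (𝓞 K)) ^ l := by
    rw [hg, ← Ideal.span_singleton_mul_span_singleton] at h1
    refine mul_left_cancel₀ ?_ h1
    rw [ne_eq, Ideal.zero_eq_bot, Ideal.span_singleton_eq_bot]
    exact hxl
  have h4 : ((Algebra.norm ℤ g).natAbs : ℝ) ≤ Ideal.absNorm a * (mB K : ℝ) ^ l := by
    rw [← Ideal.absNorm_span_singleton, h3, map_mul, map_pow]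
    push_cast
    gcongr
  obtain ⟨e, he⟩ := cover hl hg0
  refine ⟨g * (e : 𝓞 K) ^ l, (x : K) * ((y : K) * ((e : 𝓞 K) : K))⁻¹, ?_, ?_, ?_, fun w => ?_⟩
  · exact mul_ne_zero hg0 (pow_ne_zero _ e.ne_zero)
  · have hx' := RingOfIntegers.coe_ne_zero_iff.mpr hx
    have hy' := RingOfIntegers.coe_ne_zero_iff.mpr hy
    have he' : ((e : 𝓞 K) : K) ≠ 0 := RingOfIntegers.coe_ne_zero_iff.mpr e.ne_zero
    exact mul_ne_zero hx' (inv_ne_zero (mul_ne_zero hy' he'))
  · have hy' := RingOfIntegers.coe_ne_zero_iff.mpr hy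
    have he' : ((e : 𝓞 K) : K) ≠ 0 := RingOfIntegers.coe_ne_zero_iff.mpr e.ne_zero
    have hg' : (α : K) * (y : K) ^ l = (x : K) ^ l * (g : K) := by
      have := congrArg (algebraMap (𝓞 K) K) hg
      simpa using this
    have e1 : ((g * (e : 𝓞 K) ^ l : 𝓞 K) : K) = (g : K) * ((e : 𝓞 K) : K) ^ l := by simp
    rw [e1, mul_pow, inv_pow, mul_pow]
    field_simp
    linear_combination hg'
  · refine (he w).trans ?_
    have h5 : Real.log ((Algebra.norm ℤ g).natAbs : ℝ) ≤
        Real.log (Ideal.absNorm a) + l * Real.log (mB K) := by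
      have hNa : (0 : ℝ) < Ideal.absNorm a := by
        have : Ideal.absNorm a ≠ 0 := by
          rw [ne_eq, Ideal.absNorm_eq_zero_iff]
          exact ha
        exact_mod_cast Nat.pos_of_ne_zero this
      have hmB : (0 : ℝ) < mB K := by
        have := one_le_mB K
        linarith
      rw [← Real.log_pow, ← Real.log_mul hNa.ne' (pow_pos hmB l).ne']
      refine Real.log_le_log ?_ h4
      exact_mod_cast norm_pos hg0
    unfold cwC
    linarith

end H51.CW
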