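import Pool.Agent.H51.CW.Wd

/-!
# [H51 CW We] Chevalley-Weil: values of two functions without common zeros
-/

set_option autoImplicit false

open NumberField NumberField.InfinitePlace Module IsDedekindDomain UniqueFactorizationMonoid

noncomputable section

namespace H51.CW

open scoped Classical in
/-- an ideal whose multiplicities outside `D` are divisible by `l` -/
theorem ideal_part {R : Type*} [CommRing R] [IsDedekindDomain R] {l : ℕ} (hl : 1 ≤ l)
    (D : Ideal R) (hD : D ≠ ⊥) : ∀ (n : ℕ) (I : Ideal R), I ≠ ⊥ →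
    (normalizedFactors I).card ≤ n →
    (∀ q : Ideal R, Prime q → ¬ q ∣ D → l ∣ (normalizedFactors I).count q) →
    ∃ a b : Ideal R, I = a * b ^ l ∧ a ∣ D ^ (l - 1) := by
  intro n
  induction n with
  | zero =>
    intro I hI hc _
    refine ⟨1, 1, ?_, one_dvd _⟩
    have h1 : normalizedFactors I = 0 := Multiset.card_eq_zero.1 (Nat.le_zero.1 hc)
    have h2 := Ideal.prod_normalizedFactors_eq_self hI
    rw [h1, Multiset.prod_zero] at h2
    rw [one_pow, mul_one, ← h2]
  | succ n ih =>
    intro I hI hc h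
    by_cases hq : ∃ q : Ideal R, Prime q ∧ q ^ l ∣ I
    · obtain ⟨q, hq, J, hJ⟩ := hq
      have hJ0 : J ≠ ⊥ := by
        rintro rfl
        exact hI (by rw [hJ, ← Ideal.zero_eq_bot, mul_zero])
      have hqf : normalizedFactors q = {q} := by
        rw [normalizedFactors_irreducible hq.irreducible, normalize_eq]
      have hIf : normalizedFactors I = l • ({q} : Multiset (Ideal R)) + normalizedFactors J := by
        rw [hJ, normalizedFactors_mul (pow_ne_zero _ hq.ne_zero) hJ0, normalizedFactors_pow, hqf]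
      have hcard : (normalizedFactors J).card ≤ n := by
        rw [hIf, Multiset.card_add, Multiset.card_nsmul, Multiset.card_singleton] at hc
        simp only [smul_eq_mul, mul_one] at hc
        omega
      obtain ⟨a, b, hab, ha⟩ := ih J hJ0 hcard (by
        intro q' hq' hD'
        have h1 := h q' hq' hD'
        rw [hIf, Multiset.count_add, Multiset.count_nsmul] at h1
        exact (Nat.dvd_add_right (Dvd.intro _ rfl)).1 h1)
      refine ⟨a, q * b, ?_, ha⟩
      rw [hJ, hab, mul_pow]
      ring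
    · push Not at hq
      refine ⟨I, 1, by rw [one_pow, mul_one], ?_⟩
      rw [dvd_iff_normalizedFactors_le_normalizedFactors hI (pow_ne_zero _ hD),
        normalizedFactors_pow, Multiset.le_iff_count]
      intro q
      by_cases hqI : q ∈ normalizedFactors I
      · have hqp := prime_of_normalized_factor q hqI
        have hqf : normalizedFactors q = {q} := by
          rw [normalizedFactors_irreducible hqp.irreducible, normalize_eq]
        have hlt : (normalizedFactors I).count q < l := by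
          by_contra hge
          push Not at hge
          refine hq q hqp ?_
          rw [dvd_iff_normalizedFactors_le_normalizedFactors (pow_ne_zero _ hqp.ne_zero) hI,
            normalizedFactors_pow, hqf, Multiset.nsmul_singleton]
          exact Multiset.le_count_iff_replicate_le.1 hge
        by_cases hqD : q ∣ D
        · rw [Multiset.count_nsmul]
          have h1 : 1 ≤ (normalizedFactors D).count q := by
            rw [Multiset.one_le_count_iff_mem, Ideal.mem_normalizedFactors_iff hD]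
            exact ⟨Ideal.isPrime_of_prime hqp, Ideal.dvd_iff_le.1 hqD⟩
          calc (normalizedFactors I).count q ≤ l - 1 := by omega
            _ = (l - 1) * 1 := (mul_one _).symm
            _ ≤ (l - 1) * (normalizedFactors D).count q := Nat.mul_le_mul_left _ h1
        · have h1 := h q hqp hqD
          have h2 := Nat.eq_zero_of_dvd_of_lt h1 hlt
          rw [h2]
          exact Nat.zero_le _
      · rw [Multiset.count_eq_zero_of_notMem hqI]
        exact Nat.zero_le _

variable {K : Type*} [Field K] [NumberField K]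

/-- the local computation -/
theorem val_pow {l : ℕ} (hl : 1 ≤ l) {δ : ℕ} (f f' A B p : K) (hf0 : f ≠ 0)
    (hf : IsIntegral ℤ ((δ : K) * f)) (hf' : IsIntegral ℤ ((δ : K) * f'))
    (hA : IsIntegral ℤ ((δ : K) * A)) (hB : IsIntegral ℤ ((δ : K) * B))
    (h1 : A * f + B * f' = 1) (h2 : f' = f * p ^ l) (q : HeightOneSpectrum (𝓞 K))
    (hq : q.valuation K (δ : K) = 1) : ∃ t : K, t ≠ 0 ∧ q.valuation K f = q.valuation K t ^ l := by
  have hint : ∀ z : K, IsIntegral ℤ ((δ : K) * z) → q.valuation K z ≤ 1 := by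
    intro z hz
    have e1 := q.valuation_le_one (K := K) (⟨(δ : K) * z, hz⟩ : 𝓞 K)
    change q.valuation K ((δ : K) * z) ≤ 1 at e1
    rwa [map_mul, hq, one_mul] at e1
  have ef := hint f hf
  have ef' := hint f' hf'
  have eA := hint A hA
  have eB := hint B hB
  by_cases hv : q.valuation K f = 1
  · exact ⟨1, one_ne_zero, by rw [hv, map_one, one_pow]⟩
  · have hv1 : q.valuation K f < 1 := lt_of_le_of_ne ef hv
    have hv' : q.valuation K f' = 1 := by
      by_contra hc
      have hv2 : q.valuation K f' < 1 := lt_of_le_of_ne ef' hc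
      have e1 : q.valuation K (A * f + B * f') < 1 := by
        refine Valuation.map_add_lt _ ?_ ?_
        · rw [map_mul]
          exact mul_lt_one_of_nonneg_of_lt_one_right eA zero_le hv1
        · rw [map_mul]
          exact mul_lt_one_of_nonneg_of_lt_one_right eB zero_le hv2
      rw [h1, map_one] at e1
      exact lt_irrefl _ e1
    have hp0 : p ≠ 0 := by
      rintro rfl
      rw [h2, zero_pow (by omega), mul_zero, map_zero] at hv'
      exact zero_ne_one hv'
    refine ⟨p⁻¹, inv_ne_zero hp0, ?_⟩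
    rw [h2, map_mul, map_pow] at hv'
    have e3 : q.valuation K p ≠ 0 := (Valuation.ne_zero_iff _).2 hp0
    rw [map_inv₀, inv_pow]
    exact eq_inv_of_mul_eq_one_left hv'

theorem count_dvd {l : ℕ} {α : 𝓞 K} (hα : α ≠ 0) (q : HeightOneSpectrum (𝓞 K)) (t : K)
    (ht : t ≠ 0) (h : q.valuation K (α : K) = q.valuation K t ^ l) :
    l ∣ multiplicity q.asIdeal (Ideal.span {α}) := by
  rw [q.valuation_of_algebraMap, q.intValuation_eq_exp_neg_multiplicity hα] at h
  have h1 : q.valuation K t ≠ 0 := (Valuation.ne_zero_iff _).2 ht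
  obtain ⟨k, hk⟩ : ∃ k : ℤ, q.valuation K t = WithZero.exp k :=
    ⟨WithZero.log (q.valuation K t), (WithZero.exp_log h1).symm⟩
  rw [hk, ← WithZero.exp_nsmul, WithZero.exp_inj] at h
  rw [← Int.natCast_dvd_natCast]
  refine ⟨-k, ?_⟩
  rw [nsmul_eq_mul] at h
  linarith

/-- the ideal of `δ ^ l f` is nearly an `l`-th power -/
theorem cw_ideal {l : ℕ} (hl : 1 ≤ l) {δ : ℕ} (hδ : δ ≠ 0) (f f' A B p : K) (hf0 : f ≠ 0)
    (hf : IsIntegral ℤ ((δ : K) * f)) (hf' : IsIntegral ℤ ((δ : K) * f'))
    (hA : IsIntegral ℤ ((δ : K) * A)) (hB : IsIntegral ℤ ((δ : K) * B))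
    (h1 : A * f + B * f' = 1) (h2 : f' = f * p ^ l) : ∃ (α : 𝓞 K) (a b : Ideal (𝓞 K)),
      α ≠ 0 ∧ (α : K) = (δ : K) ^ l * f ∧ Ideal.span {α} = a * b ^ l ∧ a ≠ ⊥ ∧
      Ideal.absNorm a ≤ δ ^ (finrank ℚ K * (l - 1)) := by
  classical
  have hδK : (δ : K) ≠ 0 := by exact_mod_cast hδ
  have hδi : IsIntegral ℤ (δ : K) := isIntegral_natCast δ
  have hαi : IsIntegral ℤ ((δ : K) ^ l * f) := by
    have e : (δ : K) ^ l * f = (δ : K) ^ (l - 1) * ((δ : K) * f) := by
      rw [← mul_assoc, ← pow_succ, Nat.sub_add_cancel hl]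
    rw [e]
    exact (hδi.pow _).mul hf
  let α : 𝓞 K := ⟨(δ : K) ^ l * f, hαi⟩
  have hα : (α : K) = (δ : K) ^ l * f := rfl
  have hα0 : α ≠ 0 := by
    rw [← RingOfIntegers.coe_ne_zero_iff]
    exact mul_ne_zero (pow_ne_zero _ hδK) hf0
  let D : Ideal (𝓞 K) := Ideal.span {(δ : 𝓞 K)}
  have hδO : (δ : 𝓞 K) ≠ 0 := by exact_mod_cast hδ
  have hD : D ≠ ⊥ := by
    rw [ne_eq, Ideal.span_singleton_eq_bot]
    exact hδO
  have hsp : Ideal.span {α} ≠ ⊥ := by
    rw [ne_eq, Ideal.span_singleton_eq_bot]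
    exact hα0
  obtain ⟨a, b, hab, ha⟩ := ideal_part hl D hD _ (Ideal.span {α}) hsp le_rfl (by
    intro q hq hqD
    let Q : HeightOneSpectrum (𝓞 K) := ⟨q, Ideal.isPrime_of_prime hq, hq.ne_zero⟩
    have hQδ : Q.valuation K (δ : K) = 1 := by
      refine le_antisymm (by exact_mod_cast Q.valuation_le_one (K := K) (δ : 𝓞 K)) ?_
      by_contra hc
      push Not at hc
      have e1 := (Q.valuation_lt_one_iff_dvd (K := K) (δ : 𝓞 K)).1 (by exact_mod_cast hc)
      exact hqD e1
    obtain ⟨t, ht0, ht⟩ := val_pow hl f f' A B p hf0 hf hf' hA hB h1 h2 Q hQδ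
    have e2 : Q.valuation K (α : K) = Q.valuation K t ^ l := by
      rw [hα, map_mul, map_pow, hQδ, one_pow, one_mul, ht]
    have e3 := count_dvd hα0 Q t ht0 e2
    have e4 : multiplicity q (Ideal.span {α}) = (normalizedFactors (Ideal.span {α})).count q := by
      have hfm : FiniteMultiplicity q (Ideal.span {α}) := FiniteMultiplicity.of_prime_left hq hsp
      have e5 := emultiplicity_eq_count_normalizedFactors hq.irreducible hsp
      rw [normalize_eq, hfm.emultiplicity_eq_multiplicity] at e5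
      exact_mod_cast e5
    rw [← e4]
    exact e3)
  refine ⟨α, a, b, hα0, hα, hab, ?_, ?_⟩
  · rintro rfl
    exact hsp (by rw [hab, ← Ideal.zero_eq_bot, zero_mul])
  · have e1 := map_dvd (Ideal.absNorm (S := 𝓞 K)) ha
    have e2 : Ideal.absNorm (D ^ (l - 1)) = δ ^ (finrank ℚ K * (l - 1)) := by
      rw [map_pow, Ideal.absNorm_span_singleton, pow_mul]
      congr 1
      have e3 : Algebra.norm ℤ (δ : 𝓞 K) = (δ : ℤ) ^ finrank ℚ K := by
        have := Algebra.norm_algebraMap (R := ℤ) (S := 𝓞 K) (δ : ℤ)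
        rw [RingOfIntegers.rank] at this
        simpa using this
      rw [e3, Int.natAbs_pow, Int.natAbs_natCast]
    rw [e2] at e1
    exact Nat.le_of_dvd (Nat.pos_of_ne_zero (pow_ne_zero _ hδ)) e1

/-- **Chevalley-Weil for values**: `f` is a bounded number times an `l`-th power -/
theorem cw {l : ℕ} (hl : 1 ≤ l) {δ : ℕ} (hδ : δ ≠ 0) (f f' A B p : K) (hf0 : f ≠ 0)
    (hf : IsIntegral ℤ ((δ : K) * f)) (hf' : IsIntegral ℤ ((δ : K) * f'))
    (hA : IsIntegral ℤ ((δ : K) * A)) (hB : IsIntegral ℤ ((δ : K) * B))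
    (h1 : A * f + B * f' = 1) (h2 : f' = f * p ^ l) : ∃ (u : 𝓞 K) (v : K), u ≠ 0 ∧ v ≠ 0 ∧
      f = u * v ^ l ∧ ∀ w : InfinitePlace K,
        w (u : K) ≤ (δ : ℝ) ^ (finrank ℚ K * (l - 1)) * Real.exp (cwC K l) := by
  obtain ⟨α, a, b, hα0, hα, hab, ha0, hNa⟩ := cw_ideal hl hδ f f' A B p hf0 hf hf' hA hB h1 h2
  have hδK : (δ : K) ≠ 0 := by exact_mod_cast hδ
  obtain ⟨u, v, hu, hv, huv, hb⟩ := cw_unit hl hα0 a b hab
  refine ⟨u, v * ((δ : K))⁻¹, hu, mul_ne_zero hv (inv_ne_zero hδK), ?_, fun w => ?_⟩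
  · rw [hα] at huv
    rw [mul_pow, inv_pow]
    field_simp
    linear_combination huv
  · have hNa0 : (0 : ℝ) < Ideal.absNorm a := by
      have : Ideal.absNorm a ≠ 0 := by
        rw [ne_eq, Ideal.absNorm_eq_zero_iff]
        exact ha0
      exact_mod_cast Nat.pos_of_ne_zero this
    have hw : 0 < w (u : K) := pos_iff.mpr (RingOfIntegers.coe_ne_zero_iff.mpr hu)
    have e1 := hb w
    rw [← Real.log_exp (cwC K l), ← Real.log_mul hNa0.ne' (Real.exp_pos _).ne',
      Real.log_le_log_iff hw (by positivity)] at e1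
    refine e1.trans ?_
    gcongr
    exact_mod_cast hNa

end H51.CW
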