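import Pool.Agent.H51.CW.We

/-!
# [H51 CW Wf] Chevalley-Weil for values: the bound in terms of degree and discriminant
-/

set_option autoImplicit false

open NumberField NumberField.InfinitePlace Module

noncomputable section

namespace H51.CW

variable {K : Type*} [Field K] [NumberField K]

theorem cwC_le {l : ℕ} (hl : 1 ≤ l) : cwC K l ≤
    l * (2 ^ (finrank ℚ K + 1) * (|(discr K : ℝ)| + 1)) ^ (2 * finrank ℚ K + 10) := by
  set d := finrank ℚ K with hd
  have hl1 : (1 : ℝ) ≤ l := by exact_mod_cast hl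
  have hD : ((discr K).natAbs : ℝ) = |(discr K : ℝ)| := by
    rw [Nat.cast_natAbs, Int.cast_abs]
  have hmB : (mB K : ℝ) = 2 ^ d * (|(discr K : ℝ)| + 1) := by
    unfold mB
    push_cast
    rw [hD]
  have hB1 := one_le_mB K
  have hB2 : (2 : ℝ) ≤ mB K := by
    rw [hmB]
    have e1 : (1 : ℝ) ≤ |(discr K : ℝ)| := by
      rw [← Int.cast_abs]
      exact_mod_cast Int.one_le_abs (discr_ne_zero K)
    have e2 : (1 : ℝ) ≤ 2 ^ d := one_le_pow₀ (by norm_num)
    nlinarith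
  obtain ⟨X, hX⟩ : ∃ X : ℝ, X = mB K + 1 := ⟨_, rfl⟩
  have hX3 : 3 ≤ X := by linarith
  have hX1 : 1 ≤ X := by linarith
  have hX0 : 0 ≤ X := by linarith
  have hXle : X ≤ 2 ^ (d + 1) * (|(discr K : ℝ)| + 1) := by
    rw [hX, pow_succ]
    linarith
  have hlogB : Real.log (mB K) ≤ X := by
    have := Real.log_le_sub_one_of_pos (show (0 : ℝ) < mB K by linarith)
    linarith
  have hlog2B : Real.log (2 * mB K) ≤ X ^ 2 := by
    have := Real.log_le_sub_one_of_pos (show (0 : ℝ) < 2 * mB K by linarith)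
    nlinarith
  have hdX : (d : ℝ) ≤ X := by
    have e1 : (d : ℝ) ≤ 2 ^ d := by exact_mod_cast Nat.lt_two_pow_self.le
    have e2 : (2 : ℝ) ^ d ≤ mB K := by
      rw [hmB]
      have e3 : (0 : ℝ) ≤ |(discr K : ℝ)| := abs_nonneg _
      have e4 : (0 : ℝ) < 2 ^ d := by positivity
      nlinarith
    linarith
  have hmM : (mM K : ℝ) = X ^ (d + 1) := by
    unfold mM
    push_cast
    rw [hX]
  have hmL : mL K ≤ X ^ (d + 4) := by
    unfold mL
    rw [hmM]
    have hlB := log_two_mB_nonneg (K := K)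
    calc (d : ℝ) * (X ^ (d + 1) * Real.log (2 * mB K)) ≤ X * (X ^ (d + 1) * X ^ 2) := by gcongr
      _ = X ^ (d + 4) := by ring
  have hmL2 : mL K ^ 2 ≤ X ^ (2 * d + 8) := by
    calc mL K ^ 2 ≤ (X ^ (d + 4)) ^ 2 := pow_le_pow_left₀ mL_nonneg hmL 2
      _ = X ^ (2 * d + 8) := by
        rw [← pow_mul]
        congr 1
        ring
  have hP1 : X ≤ X ^ (2 * d + 8) := le_self_pow₀ hX1 (by omega)
  have hP0 : 1 ≤ X ^ (2 * d + 8) := one_le_pow₀ hX1
  have hP2 : X ^ (2 * d + 10) = X ^ (2 * d + 8) * X ^ 2 := by ring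
  have hX9 : 9 ≤ X ^ 2 := by nlinarith
  calc cwC K l = l * Real.log (mB K) + l * mL K ^ 2 + 1 := rfl
    _ ≤ l * X ^ (2 * d + 8) + l * X ^ (2 * d + 8) + l * X ^ (2 * d + 8) := by
        have e1 : (l : ℝ) * Real.log (mB K) ≤ l * X ^ (2 * d + 8) := by
          gcongr
          linarith
        have e2 : (l : ℝ) * mL K ^ 2 ≤ l * X ^ (2 * d + 8) := by gcongr
        have e3 : (1 : ℝ) ≤ l * X ^ (2 * d + 8) := by nlinarith
        linarith
    _ = l * (X ^ (2 * d + 8) * 3) := by ring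
    _ ≤ l * X ^ (2 * d + 10) := by
        rw [hP2]
        gcongr
        linarith
    _ ≤ _ := by gcongr

/-- **Chevalley-Weil for values**, explicit form -/
theorem cw_explicit {l : ℕ} (hl : 1 ≤ l) {δ : ℕ} (hδ : δ ≠ 0) (f f' A B p : K) (hf0 : f ≠ 0)
    (hf : IsIntegral ℤ ((δ : K) * f)) (hf' : IsIntegral ℤ ((δ : K) * f'))
    (hA : IsIntegral ℤ ((δ : K) * A)) (hB : IsIntegral ℤ ((δ : K) * B))
    (h1 : A * f + B * f' = 1) (h2 : f' = f * p ^ l) : ∃ (u : 𝓞 K) (v : K), u ≠ 0 ∧ v ≠ 0 ∧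
      f = u * v ^ l ∧ ∀ w : InfinitePlace K, w (u : K) ≤
        (δ : ℝ) ^ (finrank ℚ K * (l - 1)) * Real.exp
          (l * (2 ^ (finrank ℚ K + 1) * (|(discr K : ℝ)| + 1)) ^ (2 * finrank ℚ K + 10)) := by
  obtain ⟨u, v, hu, hv, huv, hb⟩ := cw hl hδ f f' A B p hf0 hf hf' hA hB h1 h2
  refine ⟨u, v, hu, hv, huv, fun w => (hb w).trans ?_⟩
  have := cwC_le (K := K) hl
  gcongr

end H51.CW
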