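import Pool.Agent.H51.CW.We

/-!
# [H51 CW Wg] Chevalley-Weil for values, polynomial bounds: Minkowski in the box adapted to the
value (helper26's remark): no units, no class group
-/

set_option autoImplicit false

open NumberField NumberField.InfinitePlace NumberField.mixedEmbedding Module IsDedekindDomain
  UniqueFactorizationMonoid
open scoped NNReal ENNReal

noncomputable section

namespace H51.CW

variable {K : Type*} [Field K] [NumberField K]

theorem mink_lt_ideal (b : nonZeroDivisors (Ideal (𝓞 K))) :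
    minkowskiBound K (FractionalIdeal.mk0 K b) <
      ((Ideal.absNorm (b : Ideal (𝓞 K)) * mB K : ℕ) : ℝ≥0∞) := by
  have hb : Ideal.absNorm (b : Ideal (𝓞 K)) ≠ 0 := by
    rw [ne_eq, Ideal.absNorm_eq_zero_iff]
    exact nonZeroDivisors.coe_ne_zero b
  have h1 : minkowskiBound K (FractionalIdeal.mk0 K b) ≤
      ((Ideal.absNorm (b : Ideal (𝓞 K)) * (2 ^ (finrank ℚ K) * (discr K).natAbs) : ℕ) : ℝ≥0∞) := by
    rw [minkowskiBound, volume_fundamentalDomain_fractionalIdealLatticeBasis,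
      FractionalIdeal.coe_mk0, FractionalIdeal.coeIdeal_absNorm,
      mixedEmbedding.finrank, volume_fundamentalDomain_latticeBasis, Nat.cast_mul, Nat.cast_mul,
      Nat.cast_pow, Nat.cast_ofNat, mul_comm ((2 : ℝ≥0∞) ^ finrank ℚ K), mul_assoc]
    have h0 : ENNReal.ofReal (((Ideal.absNorm (b : Ideal (𝓞 K)) : ℚ) : ℝ)) =
        (Ideal.absNorm (b : Ideal (𝓞 K)) : ℝ≥0∞) := by
      rw [Rat.cast_natCast, ENNReal.ofReal_natCast]
    rw [h0]
    gcongr
    calc (2 : ℝ≥0∞)⁻¹ ^ nrComplexPlaces K * (NNReal.sqrt ‖discr K‖₊ : ℝ≥0∞)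
        ≤ 1 * (NNReal.sqrt ‖discr K‖₊ : ℝ≥0∞) := by
          gcongr
          exact pow_le_one₀ (by positivity) (by simp)
      _ = (NNReal.sqrt ‖discr K‖₊ : ℝ≥0∞) := one_mul _
      _ ≤ ((discr K).natAbs : ℝ≥0∞) := by
          rw [← ENNReal.coe_natCast, ENNReal.coe_le_coe, ← NNReal.coe_le_coe, Real.coe_sqrt,
            coe_nnnorm, Int.norm_eq_abs, NNReal.coe_natCast, Nat.cast_natAbs, Int.cast_abs]
          have h2 : (1 : ℝ) ≤ |(discr K : ℝ)| := by
            rw [← Int.cast_abs]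
            exact_mod_cast Int.one_le_abs (discr_ne_zero K)
          rw [Real.sqrt_le_left (by positivity)]
          nlinarith
  refine lt_of_le_of_lt h1 ?_
  rw [Nat.cast_lt]
  refine Nat.mul_lt_mul_of_pos_left ?_ (Nat.pos_of_ne_zero hb)
  unfold mB
  have : 0 < 2 ^ (finrank ℚ K) := by positivity
  exact Nat.mul_lt_mul_of_pos_left (Nat.lt_succ_self _) this

/-- the small element of `b` in the box adapted to `α` -/
theorem box {l : ℕ} (hl : 1 ≤ l) {α : 𝓞 K} (hα : α ≠ 0) (b : nonZeroDivisors (Ideal (𝓞 K)))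
    (hb : (Ideal.absNorm (b : Ideal (𝓞 K))) ^ l ≤ (Algebra.norm ℤ α).natAbs) :
    ∃ v : 𝓞 K, v ∈ (b : Ideal (𝓞 K)) ∧ v ≠ 0 ∧ ∀ w : InfinitePlace K,
      w (v : K) ^ l ≤ (mB K : ℝ) ^ l * w (α : K) := by
  have hl0 : l ≠ 0 := by omega
  have hαw : ∀ w : InfinitePlace K, 0 < w (α : K) := fun w =>
    pos_iff.mpr (RingOfIntegers.coe_ne_zero_iff.mpr hα)
  let f : InfinitePlace K → ℝ≥0 := fun w =>
    ⟨(mB K : ℝ) * (w (α : K)) ^ ((l : ℝ)⁻¹), by
      have := (hαw w).le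
      positivity⟩
  have hfw : ∀ w, (f w : ℝ) ^ l = (mB K : ℝ) ^ l * w (α : K) := by
    intro w
    show ((mB K : ℝ) * (w (α : K)) ^ ((l : ℝ)⁻¹)) ^ l = _
    rw [mul_pow, Real.rpow_inv_natCast_pow (hαw w).le hl0]
  have hprod : (Ideal.absNorm (b : Ideal (𝓞 K)) * mB K : ℝ) ≤
      ∏ w : InfinitePlace K, (f w : ℝ) ^ mult w := by
    have h0 : 0 ≤ ∏ w : InfinitePlace K, (f w : ℝ) ^ mult w :=
      Finset.prod_nonneg fun w _ => pow_nonneg (f w).coe_nonneg _
    rw [← pow_le_pow_iff_left₀ (by positivity) h0 hl0]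
    have h1 : (∏ w : InfinitePlace K, (f w : ℝ) ^ mult w) ^ l =
        (mB K : ℝ) ^ (l * finrank ℚ K) * ((Algebra.norm ℤ α).natAbs : ℝ) := by
      rw [norm_natAbs, ← Finset.prod_pow]
      have h2 : ∀ w : InfinitePlace K, ((f w : ℝ) ^ mult w) ^ l =
          ((mB K : ℝ) ^ l) ^ mult w * w (α : K) ^ mult w := by
        intro w
        rw [← pow_mul, mul_comm (mult w) l, pow_mul, hfw, mul_pow]
      rw [Finset.prod_congr rfl fun w _ => h2 w, Finset.prod_mul_distrib,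
        Finset.prod_pow_eq_pow_sum, sum_mult_eq, ← pow_mul]
    rw [h1, mul_pow]
    have h3 : (Ideal.absNorm (b : Ideal (𝓞 K)) : ℝ) ^ l ≤ ((Algebra.norm ℤ α).natAbs : ℝ) := by
      exact_mod_cast hb
    have h4 : (mB K : ℝ) ^ l ≤ (mB K : ℝ) ^ (l * finrank ℚ K) := by
      have hd : 0 < finrank ℚ K := Module.finrank_pos (R := ℚ) (M := K)
      exact pow_le_pow_right₀ (one_le_mB K) (Nat.le_mul_of_pos_right l hd)
    rw [mul_comm]
    gcongr
  obtain ⟨x, hx, hx0, hxw⟩ := exists_ne_zero_mem_ideal_lt K (f := f)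
    (FractionalIdeal.mk0 K b) (by
      rw [convexBodyLT_volume]
      refine lt_of_lt_of_le (mink_lt_ideal b) ?_
      have h5 : ((Ideal.absNorm (b : Ideal (𝓞 K)) * mB K : ℕ) : ℝ≥0∞) ≤
          ((∏ w, (f w) ^ (mult w) : ℝ≥0) : ℝ≥0∞) := by
        rw [← ENNReal.coe_natCast, ENNReal.coe_le_coe, ← NNReal.coe_le_coe]
        push_cast
        exact hprod
      refine h5.trans ?_
      calc ((∏ w, (f w) ^ (mult w) : ℝ≥0) : ℝ≥0∞)
          = 1 * ((∏ w, (f w) ^ (mult w) : ℝ≥0) : ℝ≥0∞) := (one_mul _).symm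
        _ ≤ _ := by
          gcongr
          exact mod_cast one_le_convexBodyLTFactor K)
  rw [FractionalIdeal.coe_mk0, FractionalIdeal.mem_coeIdeal] at hx
  obtain ⟨v, hv, rfl⟩ := hx
  refine ⟨v, hv, RingOfIntegers.coe_ne_zero_iff.1 hx0, fun w => ?_⟩
  rw [← hfw w]
  exact pow_le_pow_left₀ (apply_nonneg _ _) (hxw w).le l

theorem box_unit {l : ℕ} (hl : 1 ≤ l) {α : 𝓞 K} (hα : α ≠ 0) (a b : Ideal (𝓞 K))
    (h : Ideal.span {α} = a * b ^ l) : ∃ (u v : K) (e : ℕ), v ≠ 0 ∧ e ≠ 0 ∧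
      (α : K) = u * v ^ l ∧ IsIntegral ℤ ((e : K) * u) ∧
      (e : ℝ) ≤ (mB K : ℝ) ^ (l * finrank ℚ K) * Ideal.absNorm a ∧
      ∀ w : InfinitePlace K, w u ≤ Ideal.absNorm a * (mB K : ℝ) ^ (l * finrank ℚ K) := by
  classical
  have hsp : Ideal.span {α} ≠ 0 := by
    rw [ne_eq, Ideal.zero_eq_bot, Ideal.span_singleton_eq_bot]
    exact hα
  have hab : a * b ^ l ≠ 0 := h ▸ hsp
  have ha : a ≠ 0 := left_ne_zero_of_mul hab
  have hb : b ≠ 0 := fun hb => right_ne_zero_of_mul hab (by rw [hb, zero_pow (by omega)])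
  have hNa : 1 ≤ Ideal.absNorm a := by
    rw [Nat.one_le_iff_ne_zero, ne_eq, Ideal.absNorm_eq_zero_iff]
    exact ha
  have hNb : 1 ≤ Ideal.absNorm b := by
    rw [Nat.one_le_iff_ne_zero, ne_eq, Ideal.absNorm_eq_zero_iff]
    exact hb
  have hNα : (Algebra.norm ℤ α).natAbs = Ideal.absNorm a * Ideal.absNorm b ^ l := by
    rw [← Ideal.absNorm_span_singleton, h, map_mul, map_pow]
  have hB := one_le_mB K
  obtain ⟨v, hv, hv0, hvw⟩ := box hl hα ⟨b, mem_nonZeroDivisors_iff_ne_zero.2 hb⟩ (by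
    rw [hNα]
    exact Nat.le_mul_of_pos_left _ hNa)
  change v ∈ b at hv
  have hvK : (v : K) ≠ 0 := RingOfIntegers.coe_ne_zero_iff.mpr hv0
  have hαK : (α : K) ≠ 0 := RingOfIntegers.coe_ne_zero_iff.mpr hα
  obtain ⟨c, hc⟩ : b ∣ Ideal.span {v} := Ideal.dvd_span_singleton.2 hv
  have hNv : (Algebra.norm ℤ v).natAbs = Ideal.absNorm b * Ideal.absNorm c := by
    rw [← Ideal.absNorm_span_singleton, hc, map_mul]
  have hNc : 1 ≤ Ideal.absNorm c := by
    have h1 := norm_pos hv0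
    rw [hNv] at h1
    exact Nat.pos_of_ne_zero fun hz => by rw [hz] at h1; omega
  -- the norm of `v`
  have hNvl : ((Algebra.norm ℤ v).natAbs : ℝ) ^ l ≤
      (mB K : ℝ) ^ (l * finrank ℚ K) * ((Algebra.norm ℤ α).natAbs : ℝ) := by
    rw [norm_natAbs, norm_natAbs, ← Finset.prod_pow]
    have h2 : (mB K : ℝ) ^ (l * finrank ℚ K) * ∏ w : InfinitePlace K, w (α : K) ^ mult w =
        ∏ w : InfinitePlace K, ((mB K : ℝ) ^ l * w (α : K)) ^ mult w := by
      simp_rw [mul_pow]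
      rw [Finset.prod_mul_distrib, Finset.prod_pow_eq_pow_sum, sum_mult_eq, ← pow_mul]
    rw [h2]
    refine Finset.prod_le_prod (fun w _ => by positivity) fun w _ => ?_
    rw [← pow_mul, mul_comm (mult w) l, pow_mul]
    exact pow_le_pow_left₀ (by positivity) (hvw w) _
  have hNcl : (Ideal.absNorm c : ℝ) ^ l ≤ (mB K : ℝ) ^ (l * finrank ℚ K) * Ideal.absNorm a := by
    rw [hNv, hNα] at hNvl
    push_cast at hNvl
    have hbp : (0 : ℝ) < (Ideal.absNorm b : ℝ) ^ l := by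
      have : (0 : ℝ) < Ideal.absNorm b := by exact_mod_cast hNb
      positivity
    rw [mul_pow] at hNvl
    nlinarith
  let e : ℕ := Ideal.absNorm c ^ l
  have hwα : ∀ w : InfinitePlace K, 0 < w (α : K) := fun w => pos_iff.mpr hαK
  have hwv : ∀ w : InfinitePlace K, 0 < w (v : K) := fun w => pos_iff.mpr hvK
  -- divisibility
  have hdvd : v ^ l ∣ (Ideal.absNorm c : 𝓞 K) ^ l * α := by
    rw [← Ideal.span_singleton_le_span_singleton, ← Ideal.dvd_iff_le,
      ← Ideal.span_singleton_mul_span_singleton, ← Ideal.span_singleton_pow,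
      ← Ideal.span_singleton_pow, hc, h, mul_pow]
    have h3 : c ∣ Ideal.span {(Ideal.absNorm c : 𝓞 K)} :=
      Ideal.dvd_span_singleton.2 (Ideal.absNorm_mem c)
    have h4 : c ^ l ∣ Ideal.span {(Ideal.absNorm c : 𝓞 K)} ^ l := pow_dvd_pow_of_dvd h3 l
    rw [mul_comm (b ^ l)]
    exact mul_dvd_mul h4 (dvd_mul_left _ _)
  obtain ⟨g, hg⟩ := hdvd
  have hgK : (Ideal.absNorm c : K) ^ l * (α : K) = (v : K) ^ l * (g : K) := by
    have := congrArg (algebraMap (𝓞 K) K) hg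
    simpa using this
  refine ⟨(α : K) / (v : K) ^ l, (v : K), e, hvK, pow_ne_zero _ (by omega), ?_, ?_, ?_,
    fun w => ?_⟩
  · field_simp
  · have h5 : ((e : ℕ) : K) * ((α : K) / (v : K) ^ l) = (g : K) := by
      show ((Ideal.absNorm c ^ l : ℕ) : K) * _ = _
      push_cast
      rw [← mul_div_assoc, hgK]
      field_simp
    rw [h5]
    exact g.isIntegral_coe
  · show ((Ideal.absNorm c ^ l : ℕ) : ℝ) ≤ _
    push_cast
    exact hNcl
  · have hX : (1 : ℝ) ≤ Ideal.absNorm a * (mB K : ℝ) ^ (l * finrank ℚ K) := by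
      have h6 : (1 : ℝ) ≤ Ideal.absNorm a := by exact_mod_cast hNa
      have h7 : (1 : ℝ) ≤ (mB K : ℝ) ^ (l * finrank ℚ K) := one_le_pow₀ hB
      nlinarith
    rw [map_div₀, map_pow]
    -- `x w' = w' u >= mB ^ (-l)`
    have hlow : ∀ w' : InfinitePlace K, ((mB K : ℝ) ^ l)⁻¹ ≤ w' (α : K) / w' (v : K) ^ l := by
      intro w'
      have := hvw w'
      rw [le_div_iff₀ (pow_pos (hwv w') _), inv_mul_le_iff₀ (by positivity)]
      exact this
    have hprod : ∏ w' : InfinitePlace K, (w' (α : K) / w' (v : K) ^ l) ^ mult w' ≤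
        Ideal.absNorm a := by
      have h8 : ∏ w' : InfinitePlace K, (w' (α : K) / w' (v : K) ^ l) ^ mult w' =
          ((Algebra.norm ℤ α).natAbs : ℝ) / ((Algebra.norm ℤ v).natAbs : ℝ) ^ l := by
        rw [norm_natAbs, norm_natAbs, ← Finset.prod_pow, ← Finset.prod_div_distrib]
        refine Finset.prod_congr rfl fun w' _ => ?_
        rw [div_pow, ← pow_mul, ← pow_mul, mul_comm l]
      rw [h8, hNα, hNv]
      push_cast
      have hbp : (0 : ℝ) < (Ideal.absNorm b : ℝ) := by exact_mod_cast hNb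
      have hcp : (1 : ℝ) ≤ (Ideal.absNorm c : ℝ) ^ l := one_le_pow₀ (by exact_mod_cast hNc)
      rw [mul_pow, div_le_iff₀ (by positivity)]
      have h9 : (0 : ℝ) < (Ideal.absNorm b : ℝ) ^ l := by positivity
      have h10 : (0 : ℝ) ≤ (Ideal.absNorm a : ℝ) := Nat.cast_nonneg _
      have h11 : (0 : ℝ) ≤ (Ideal.absNorm a : ℝ) * (Ideal.absNorm b : ℝ) ^ l := by positivity
      nlinarith
    by_cases hle : w (α : K) / w (v : K) ^ l ≤ 1
    · exact hle.trans hX
    · push Not at hle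
      have h12 : (w (α : K) / w (v : K) ^ l) ^ mult w * (((mB K : ℝ) ^ l)⁻¹) ^ (finrank ℚ K) ≤
          Ideal.absNorm a := by
        refine le_trans ?_ hprod
        rw [← Finset.mul_prod_erase Finset.univ _ (Finset.mem_univ w)]
        have h13 : (((mB K : ℝ) ^ l)⁻¹) ^ (finrank ℚ K) ≤
            ∏ w' ∈ Finset.univ.erase w, (w' (α : K) / w' (v : K) ^ l) ^ mult w' := by
          calc (((mB K : ℝ) ^ l)⁻¹) ^ (finrank ℚ K)
              ≤ (((mB K : ℝ) ^ l)⁻¹) ^ (∑ w' ∈ Finset.univ.erase w, mult w') := by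
                refine pow_le_pow_of_le_one (by positivity)
                  (inv_le_one_of_one_le₀ (one_le_pow₀ hB)) ?_
                rw [← sum_mult_eq (K := K)]
                exact Finset.sum_le_sum_of_subset (Finset.erase_subset _ _)
            _ = ∏ w' ∈ Finset.univ.erase w, (((mB K : ℝ) ^ l)⁻¹) ^ mult w' := by
                rw [Finset.prod_pow_eq_pow_sum]
            _ ≤ _ := by
                refine Finset.prod_le_prod (fun w' _ => by positivity) fun w' _ => ?_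
                exact pow_le_pow_left₀ (by positivity) (hlow w') _
        gcongr
      have h14 : w (α : K) / w (v : K) ^ l ≤ (w (α : K) / w (v : K) ^ l) ^ mult w :=
        le_self_pow₀ hle.le mult_ne_zero
      have h15 : (w (α : K) / w (v : K) ^ l) * (((mB K : ℝ) ^ l)⁻¹) ^ (finrank ℚ K) ≤
          Ideal.absNorm a := le_trans (by gcongr) h12
      rw [inv_pow, ← pow_mul, ← div_eq_mul_inv, div_le_iff₀ (by positivity)] at h15
      exact h15

/-- **Chevalley-Weil for values**, polynomial bounds -/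
theorem cw_box {l : ℕ} (hl : 1 ≤ l) {δ : ℕ} (hδ : δ ≠ 0) (f f' A B p : K) (hf0 : f ≠ 0)
    (hf : IsIntegral ℤ ((δ : K) * f)) (hf' : IsIntegral ℤ ((δ : K) * f'))
    (hA : IsIntegral ℤ ((δ : K) * A)) (hB : IsIntegral ℤ ((δ : K) * B))
    (h1 : A * f + B * f' = 1) (h2 : f' = f * p ^ l) : ∃ (u v : K) (e : ℕ), u ≠ 0 ∧ v ≠ 0 ∧
      e ≠ 0 ∧ f = u * v ^ l ∧ IsIntegral ℤ ((e : K) * u) ∧
      (e : ℝ) ≤ (2 ^ finrank ℚ K * (|(discr K : ℝ)| + 1)) ^ (l * finrank ℚ K) *
        (δ : ℝ) ^ (finrank ℚ K * (l - 1)) ∧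
      ∀ w : InfinitePlace K, w u ≤
        (2 ^ finrank ℚ K * (|(discr K : ℝ)| + 1)) ^ (l * finrank ℚ K) *
        (δ : ℝ) ^ (finrank ℚ K * (l - 1)) := by
  have hmB : (mB K : ℝ) = 2 ^ finrank ℚ K * (|(discr K : ℝ)| + 1) := by
    unfold mB
    push_cast
    rw [Nat.cast_natAbs, Int.cast_abs]
  rw [← hmB]
  obtain ⟨α, a, b, hα0, hα, hab, ha0, hNa⟩ := cw_ideal hl hδ f f' A B p hf0 hf hf' hA hB h1 h2
  have hδK : (δ : K) ≠ 0 := by exact_mod_cast hδ
  obtain ⟨u, v, e, hv, he, huv, hi, heb, hw⟩ := box_unit hl hα0 a b hab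
  have hNa' : (Ideal.absNorm a : ℝ) ≤ (δ : ℝ) ^ (finrank ℚ K * (l - 1)) := by exact_mod_cast hNa
  have hf2 : f = u * (v * (δ : K)⁻¹) ^ l := by
    rw [hα] at huv
    rw [mul_pow, inv_pow]
    field_simp
    linear_combination huv
  refine ⟨u, v * ((δ : K))⁻¹, e, ?_, mul_ne_zero hv (inv_ne_zero hδK), he, hf2, hi, ?_,
    fun w => ?_⟩
  · rintro rfl
    exact hf0 (by rw [hf2, zero_mul])
  · refine heb.trans ?_
    gcongr
  · refine (hw w).trans ?_
    rw [mul_comm]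
    gcongr

end H51.CW
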